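import Mathlib
import Pool.Agent.Lib.helper9.SpRank

set_option autoImplicit false

namespace Pool.Agent.Results.MP_6598fd_al.Symplectic

open Matrix Pool.Agent.Lib.helper9.SpRank

theorem result : ∀ (F : Type) [Field F] (n : ℕ), Even n → 4 ≤ n →
    ∃ G : Subgroup (GL (Fin n) F),
      (∀ a : Matrix (Fin n) (Fin n) F, a.det = 0 →
        ∃ g ∈ G, (a * (g : Matrix (Fin n) (Fin n) F) * a).rank = a.rank) ∧
      ¬ (∀ g : GL (Fin n) F, (g : Matrix (Fin n) (Fin n) F).det = 1 → g ∈ G) := by
  rintro F _ n ⟨m, rfl⟩ hn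
  have hm : 2 ≤ m := by omega
  set e : Fin (m + m) ≃ Fin m ⊕ Fin m := finSumFinEquiv.symm with he
  refine ⟨Sp ((Matrix.J (Fin m) F).submatrix e e), fun a _ => rank_prop _ ?_ ?_ ?_ a, fun h => ?_⟩
  · intro v
    rw [J_dot]
    exact Finset.sum_eq_zero fun i _ => by ring
  · rw [transpose_submatrix, J_transpose]; rfl
  · intro d hd
    obtain ⟨j, hj⟩ := Function.ne_iff.1 hd
    obtain ⟨j, rfl⟩ := e.symm.surjective j
    rcases j with j | j
    · refine ⟨Pi.single (e.symm (Sum.inr j)) 1, ?_⟩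
      rw [J_dot]
      simpa [Pi.single_apply] using hj
    · refine ⟨Pi.single (e.symm (Sum.inl j)) 1, ?_⟩
      rw [J_dot]
      simpa [Pi.single_apply] using hj
  · set i0 : Fin m := ⟨0, by omega⟩
    set i1 : Fin m := ⟨1, by omega⟩
    have h01 : i0 ≠ i1 := by simp [i0, i1]
    have hne : e.symm (Sum.inl i0) ≠ e.symm (Sum.inl i1) := by simpa using h01
    have hd : (transvection (e.symm (Sum.inl i0)) (e.symm (Sum.inl i1)) (1 : F)).det = 1 :=
      det_transvection_of_ne _ _ hne _
    have := h (Matrix.GeneralLinearGroup.mkOfDetNeZero _ (by rw [hd]; exact one_ne_zero))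
      (by simpa using hd)
    rw [mem_Sp] at this
    have h2 := congrFun (congrFun this (e.symm (Sum.inr i0))) (e.symm (Sum.inl i1))
    simp [transvection, Matrix.add_mul, Matrix.mul_add, Matrix.J, h01, Matrix.one_apply] at h2

end Pool.Agent.Results.MP_6598fd_al.Symplectic
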